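import Mathlib
import Pool.Agent.Lib_helper76.TCL.Defs

/-!
# Project KTD (MP_4132b3_nt): triple Kronecker-Eisenstein series at torsion points, definitions
-/

set_option autoImplicit false

namespace Pool.Agent.KTD

open Complex Pool.Agent.TCL

/-! ### vectors and the kernel -/

/-- vectors -/
abbrev V2 : Type := ℂ × ℂ

/-- invertible linear maps -/
abbrev GL2 : Type := V2 ≃ₗ[ℂ] V2

/-- the bracket `[u, v]` -/
def cr (u v : V2) : ℂ := u.1 * v.2 - u.2 * v.1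

/-- the determinant -/
def dt (g : GL2) : ℂ := cr (g (1, 0)) (g (0, 1))

/-- `r = [u, v] / [u, l]` -/
noncomputable def rr (u v l : V2) : ℂ := cr u v / cr u l

/-- `e = [u, w] / ([u, l] [w, l])` -/
noncomputable def ee (u w l : V2) : ℂ := cr u w / (cr u l * cr w l)

/-- the kernel -/
noncomputable def GG (u1 u2 u3 v l : V2) : ℂ :=
  rr u1 v l * ee u2 u3 l * starRingEnd ℂ (ee u1 u2 l)
    - rr u3 v l * ee u1 u2 l * starRingEnd ℂ (ee u2 u3 l)

/-- both coordinates are in `S` -/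
def In (S : Set ℂ) (v : V2) : Prop := v.1 ∈ S ∧ v.2 ∈ S

/-- `O[1/N]` -/
def ON (O : Subring ℂ) (N : ℕ) : Subring ℂ where
  carrier := {z | ∃ k : ℕ, (N : ℂ) ^ k * z ∈ O}
  mul_mem' := by
    rintro a b ⟨k, hk⟩ ⟨m, hm⟩
    refine ⟨k + m, ?_⟩
    have e : (N : ℂ) ^ (k + m) * (a * b) = ((N : ℂ) ^ k * a) * ((N : ℂ) ^ m * b) := by ring
    rw [e]
    exact O.mul_mem hk hm
  one_mem' := ⟨0, by simp⟩
  add_mem' := by
    rintro a b ⟨k, hk⟩ ⟨m, hm⟩
    refine ⟨k + m, ?_⟩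
    have hN : ∀ j : ℕ, (N : ℂ) ^ j ∈ O := fun j => O.pow_mem (natCast_mem O N) j
    have e : (N : ℂ) ^ (k + m) * (a + b) =
        (N : ℂ) ^ m * ((N : ℂ) ^ k * a) + (N : ℂ) ^ k * ((N : ℂ) ^ m * b) := by ring
    rw [e]
    exact O.add_mem (O.mul_mem (hN m) hk) (O.mul_mem (hN k) hm)
  zero_mem' := ⟨0, by simp⟩
  neg_mem' := by
    rintro a ⟨k, hk⟩
    refine ⟨k, ?_⟩
    rw [mul_neg]
    exact O.neg_mem hk

/-- the elements of `GL2` which preserve the vectors with coordinates in `S` -/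
def GS (S : Set ℂ) : Subgroup GL2 where
  carrier := {g | ∀ l, In S l → In S (g l) ∧ In S (g⁻¹ l)}
  mul_mem' := by
    intro a b ha hb l hl
    refine ⟨(ha _ (hb l hl).1).1, ?_⟩
    rw [mul_inv_rev]
    exact (hb _ (ha l hl).2).2
  one_mem' := by
    intro l hl
    exact ⟨hl, by simpa using hl⟩
  inv_mem' := by
    intro a ha l hl
    exact ⟨(ha l hl).2, by rw [inv_inv]; exact (ha l hl).1⟩

/-- `diag(s, t)` -/
def dg (s t : ℂˣ) : GL2 := LinearEquiv.prodCongr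
  (LinearEquiv.smulOfUnit s) (LinearEquiv.smulOfUnit t)

/-- `(l1, l2) ↦ (l1, l2 + n l1)` -/
def un (n : ℂ) : GL2 where
  toFun l := (l.1, l.2 + n * l.1)
  invFun l := (l.1, l.2 - n * l.1)
  map_add' a b := by ext <;> simp; ring
  map_smul' a b := by ext <;> simp; ring
  left_inv a := by ext <;> simp
  right_inv a := by ext <;> simp

/-- the lower triangular elements of `GL_2(O[1/N])` -/
def IsB (O : Subring ℂ) (N : ℕ) (g : GL2) : Prop :=
  ∃ (s t : ℂˣ) (n : ℂ), (s : ℂ) ∈ ON O N ∧ ((s⁻¹ : ℂˣ) : ℂ) ∈ ON O N ∧ (t : ℂ) ∈ ON O N ∧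
    ((t⁻¹ : ℂˣ) : ℂ) ∈ ON O N ∧ n ∈ ON O N ∧ g = un n * dg s t

/-! ### families -/

/-- families of functions -/
abbrev Fs (O : Subring ℂ) : Type := O → V2 → ℂ

/-- families of vector fields -/
abbrev Fm (O : Subring ℂ) : Type := O → V2 → V2

/-- image of a function under `g` -/
def pf {O : Subring ℂ} (g : GL2) (f : Fs O) : Fs O := fun c l => f c (g⁻¹ l)

/-- image of a vector field under `g`, times the norm of the determinant -/
noncomputable def act {O : Subring ℂ} (g : GL2) (F : Fm O) : Fm O :=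
  fun c l => ((‖dt g‖ : ℂ) ^ 2) • g (F c (g⁻¹ l))

open Classical in
/-- the characters of `O²`, `l ↦ ⟨ψ(c) x, l⟩`, `c` prime to `N` -/
noncomputable def chi (O : Subring ℂ) (ω : ℂ) (ε : O → O) (N : ℕ) (x : V2) : Fs O := fun c l =>
  if In O l ∧ IsCoprime c (N : O) then pr ω (ε c * c * x.1) l.1 * pr ω (ε c * c * x.2) l.2 else 0

/-- `f ⊗ v` -/
def ten {O : Subring ℂ} (v : V2) (f : Fs O) : Fm O := fun c l => f c l • v

/-- the span over `K` of the `g . (v ⊗ χ_x)`, `g ∈ G`, `v ∈ K²`, `N x ∈ O²` -/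
noncomputable def MM (O : Subring ℂ) (ω : ℂ) (ε : O → O) (N : ℕ) (G : Subgroup GL2) :
    Submodule (KK O) (Fm O) :=
  Submodule.span (KK O) {F | ∃ g ∈ G, ∃ v x : V2, In (KK O) v ∧ In O ((N : ℂ) • x) ∧
    F = act g (ten v (chi O ω ε N x))}

/-- the span of the `g_* χ_(a, b)`, `g` lower triangular, `b ∉ O` -/
noncomputable def FP (O : Subring ℂ) (ω : ℂ) (ε : O → O) (N : ℕ) : Submodule (KK O) (Fs O) :=
  Submodule.span (KK O) {f | ∃ (g : GL2) (x : V2), IsB O N g ∧ In O ((N : ℂ) • x) ∧ x.2 ∉ O ∧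
    f = pf g (chi O ω ε N x)}

/-- the span of the `f ⊗ v`, `f ∈ FP`, `v ∈ K²` -/
noncomputable def MP (O : Subring ℂ) (ω : ℂ) (ε : O → O) (N : ℕ) : Submodule (KK O) (Fm O) :=
  Submodule.span (KK O) {F | ∃ (v : V2) (f : Fs O), In (KK O) v ∧ f ∈ FP O ω ε N ∧ F = ten v f}

/-- the triangle sums -/
noncomputable def TT {O : Subring ℂ} (R : Finset O) (u1 u2 u3 : V2) (F : Fm O) : ℂ :=
  ∑ c ∈ R, ∑' l : V2, GG u1 u2 u3 (F c l) l

/-- the `K`-valued triangle sums -/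
noncomputable def tau {O : Subring ℂ} (Λ : ℂ →ₗ[KK O] KK O) (R : Finset O) (u1 u2 u3 : V2)
    (F : Fm O) : KK O := Λ (TT R u1 u2 u3 F)

/-! ### sublattices -/

/-- the sublattice `{l ∈ O[1/N]² : p ∣ [w, l]}` -/
def Lw (O : Subring ℂ) (N : ℕ) (p : O) (w : V2) : Set V2 :=
  {l | In (ON O N) l ∧ ∃ z ∈ ON O N, cr w l = p * z}

/-- `p O[1/N]²` -/
def pL (O : Subring ℂ) (N : ℕ) (p : O) : Set V2 :=
  {l | ∃ l', In (ON O N) l' ∧ l = (p : ℂ) • l'}

/-- the set of the `p`-sublattices -/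
def LS (O : Subring ℂ) (N : ℕ) (p : O) : Set (Set V2) :=
  {L | ∃ w, In (ON O N) w ∧ w ∉ pL O N p ∧ L = Lw O N p w}

open Classical in
/-- the finite set of the `p`-sublattices -/
noncomputable def LF (O : Subring ℂ) (N : ℕ) (p : O) : Finset (Set V2) :=
  if h : (LS O N p).Finite then h.toFinset else ∅

open Classical in
/-- restriction of a family to `L` -/
noncomputable def res {O : Subring ℂ} (L : Set V2) (F : Fm O) : Fm O :=
  fun c l => if l ∈ L then F c l else 0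

open Classical in
/-- a short vector of `L` -/
noncomputable def sv (O : Subring ℂ) (ω : ℂ) (p : O) (L : Set V2) : V2 :=
  if h : ∃ v, v ∈ L ∧ In O v ∧ v ≠ 0 ∧ ‖v‖ ≤ (1 + ‖ω‖) * √‖(p : ℂ)‖ then h.choose else (1, 0)

/-- the primes of `O` which do not divide `N` -/
abbrev PP (O : Subring ℂ) (N : ℕ) : Type := {p : O // Prime p ∧ ¬ p ∣ (N : O)}

/-- null sequences -/
def Nul (O : Subring ℂ) (N : ℕ) : Submodule (KK O) (PP O N → KK O) where
  carrier := {h | Filter.Tendsto (fun p => ‖((h p : KK O) : ℂ)‖) Filter.cofinite (nhds 0)}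
  zero_mem' := by simpa using tendsto_const_nhds
  add_mem' := by
    intro a b ha hb
    refine squeeze_zero (fun p => norm_nonneg _) (fun p => ?_) (by simpa using ha.add hb)
    show ‖(((a p + b p : KK O)) : ℂ)‖ ≤ _
    push_cast
    exact norm_add_le _ _
  smul_mem' := by
    intro c a ha
    have h1 : (fun p => ‖(((c • a) p : KK O) : ℂ)‖) = fun p => ‖(c : ℂ)‖ * ‖((a p : KK O) : ℂ)‖ := by
      funext p
      show ‖((c * a p : KK O) : ℂ)‖ = _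
      push_cast
      exact norm_mul _ _
    show Filter.Tendsto (fun p => ‖(((c • a) p : KK O) : ℂ)‖) Filter.cofinite (nhds 0)
    rw [h1]
    simpa using Filter.Tendsto.const_mul ‖(c : ℂ)‖ ha

/-- sequences in `K` modulo null sequences -/
abbrev HH (O : Subring ℂ) (N : ℕ) : Type := (PP O N → KK O) ⧸ Nul O N

/-- the edge sums -/
noncomputable def WW {O : Subring ℂ} (ω : ℂ) (N : ℕ) (Λ : ℂ →ₗ[KK O] KK O) (R : Finset O)
    (x0 x1 : V2) (F : Fm O) : PP O N → KK O :=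
  fun p => ∑ L ∈ LF O N p.1, tau Λ R (sv O ω p.1 L) x0 x1 (res L F)

/-- the defects -/
noncomputable def UU {O : Subring ℂ} (ω : ℂ) (N : ℕ) (Λ : ℂ →ₗ[KK O] KK O) (R : Finset O)
    (g : GL2) (x : V2) (F : Fm O) : PP O N → KK O :=
  fun p => ∑ L ∈ LF O N p.1, tau Λ R (g⁻¹ (sv O ω p.1 (g '' L))) (sv O ω p.1 L) x (res L F)

/-- the standing hypotheses -/
structure Ctx (O : Subring ℂ) (ω : ℂ) (f : O) (ε : O → O) (N : ℕ) (R : Finset O)
    (Λ : ℂ →ₗ[KK O] KK O) : Prop where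
  quad : Quad O ω
  pid : IsPrincipalIdealRing O
  f_ne : f ≠ 0
  gc : GC O f ε
  N_pos : 0 < N
  f_dvd : f ∣ (N : O)
  reps : ∀ x : O, IsCoprime x (N : O) → ∃! k, k ∈ R ∧ (N : O) ∣ x - k
  cop : ∀ x ∈ R, IsCoprime x (N : O)
  Λ_LE : Λ (LE O ε) = 0

/-! ### the statement -/

/-- the triple series `K(x, y, z; v, w)` -/
noncomputable def KS (O : Subring ℂ) (ω : ℂ) (x y z v w : ℂ) : ℂ :=
  ∑' l : O × O, pr ω x l.1 * pr ω y l.2 * pr ω z (-(l.1 + l.2 : ℂ)) *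
    (w * starRingEnd ℂ (l.1 : ℂ) - v * starRingEnd ℂ (l.2 : ℂ)) /
      (‖(l.1 : ℂ)‖ * ‖(l.2 : ℂ)‖ * ‖(l.1 : ℂ) + l.2‖ : ℂ) ^ 2

/-- bidistributions with values in a vector space over `K` -/
structure BD (O : Subring ℂ) (f : O) (ε : O → O) (H : Type) [AddCommGroup H] [Module (KK O) H]
    (B : ℂ → ℂ → H) : Prop where
  per1 : ∀ a ∈ KK O, ∀ b ∈ KK O, a ∉ O → b ∉ O → ∀ k : O, B (a + k) b = B a b
  per2 : ∀ a ∈ KK O, ∀ b ∈ KK O, a ∉ O → b ∉ O → ∀ k : O, B a (b + k) = B a b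
  dist1 : ∀ a ∈ KK O, ∀ b ∈ KK O, a ∉ O → b ∉ O → ∀ r : O, r ≠ 0 → ∀ R : Finset O, IsReps r R →
    ∀ c : KK O, (c : ℂ) * starRingEnd ℂ (r : ℂ) = 1 → ∑ k ∈ R, B ((a + k) / r) b = c • B a b
  dist2 : ∀ a ∈ KK O, ∀ b ∈ KK O, a ∉ O → b ∉ O → ∀ r : O, r ≠ 0 → ∀ R : Finset O, IsReps r R →
    ∑ k ∈ R, B a ((b + k) / r) = B a b
  gal : ∀ a ∈ KK O, ∀ b ∈ KK O, a ∉ O → b ∉ O → ∀ n c : O, n ≠ 0 → (n : ℂ) * a ∈ O →
    (n : ℂ) * b ∈ O → IsCoprime c (n * f) → B (ε c * c * a) (ε c * c * b) = B a b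

/-- the cobracket of the symbol `(x, y, z; v, w)`, evaluated at `B` -/
noncomputable def dl {O : Subring ℂ} {H : Type} [AddCommGroup H] [Module (KK O) H] (B : ℂ → ℂ → H)
    (x y z : ℂ) (v w : KK O) : H :=
  v • (B (x - z) (z - y) + B (y - x) (z - y)) + w • (B (z - y) (x - z) + B (y - x) (x - z))
    + (-v - w) • (B (z - y) (y - x) + B (x - z) (y - x))

end Pool.Agent.KTD
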