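import Pool.Agent.Lib_helper87.KTD.Defs

/-!
# Project KTD (MP_4132b3_nt): the notions of the statement
-/

set_option autoImplicit false

namespace Pool.Agent.KTD

open Complex Pool.Agent.TCL

/-- the symbols `(x i, y i, z i)`: torsion points, pairwise distinct in `K / O` -/
structure Cfg (O : Subring ℂ) (n : ℕ) (x y z : Fin n → ℂ) : Prop where
  x_mem : ∀ i, x i ∈ KK O
  y_mem : ∀ i, y i ∈ KK O
  z_mem : ∀ i, z i ∈ KK O
  zy : ∀ i, z i - y i ∉ O
  xz : ∀ i, x i - z i ∉ O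
  yx : ∀ i, y i - x i ∉ O

/-- the cobracket of `∑ i (x i, y i, z i; v i, w i)` is zero: all `K`-valued bidistributions are zero
on it -/
def Closed (O : Subring ℂ) (f : O) (ε : O → O) (n : ℕ) (x y z : Fin n → ℂ)
    (v w : Fin n → KK O) : Prop :=
  ∀ B : ℂ → ℂ → KK O, BD O f ε (KK O) B → ∑ i, dl B (x i) (y i) (z i) (v i) (w i) = 0

open Classical in
/-- the sum of the values of the triple series at the Galois conjugates `(ψ(c) x i, ψ(c) y i, ψ(c) z i)`,
`c` in the part of `S` prime to `M` -/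
noncomputable def TR (O : Subring ℂ) (ω : ℂ) (ε : O → O) (M : O) (S : Finset O) (n : ℕ)
    (x y z : Fin n → ℂ) (v w : Fin n → KK O) : ℂ :=
  ∑ c ∈ S.filter (fun c => IsCoprime c M), ∑ i,
    KS O ω (ε c * c * x i) (ε c * c * y i) (ε c * c * z i) (v i) (w i)

/-- invariance under the complex conjugation `t ↦ u conj(t)` of `K / O` -/
def CInv (O : Subring ℂ) (u : O) (n : ℕ) (x y z : Fin n → ℂ) (v w : Fin n → KK O) : Prop :=
  ∃ σ : Equiv.Perm (Fin n), ∀ i, (u : ℂ) * starRingEnd ℂ (x i) - x (σ i) ∈ O ∧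
    (u : ℂ) * starRingEnd ℂ (y i) - y (σ i) ∈ O ∧ (u : ℂ) * starRingEnd ℂ (z i) - z (σ i) ∈ O ∧
    starRingEnd ℂ (v i : ℂ) = v (σ i) ∧ starRingEnd ℂ (w i : ℂ) = w (σ i)

/-- `x i, y i, z i` is a closed configuration of level `M`, `S` is a set of representatives modulo `M` -/
structure Adm (O : Subring ℂ) (f : O) (ε : O → O) (n : ℕ) (x y z : Fin n → ℂ)
    (v w : Fin n → KK O) (M : O) (S : Finset O) : Prop where
  cfg : Cfg O n x y z
  closed : Closed O f ε n x y z v w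
  dvd : f ∣ M
  ne : M ≠ 0
  reps : IsReps M S
  level : ∀ i, (M : ℂ) * x i ∈ O ∧ (M : ℂ) * y i ∈ O ∧ (M : ℂ) * z i ∈ O

end Pool.Agent.KTD
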